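import Pool.Agent.H28R2.Cardy.Polya

/-!
# Evaluation of `M(a,b)` by the Polya urn law
-/

set_option autoImplicit false

namespace Pool.Agent.H28R2.Cardy

open Polynomial Finset

/-- Boundary case of the Polya recursion. -/
theorem polya_zero {P Ps : ℕ → ℚ[X]} (h : Ladder P Ps) (b : ℕ) :
    ((b : ℚ) + 5 / 3) * M P Ps 0 (b + 1)
      = ((b : ℚ) + 4 / 3) * M P Ps 0 b
        - 1 / 3 * Rs (-2 / 3) (2 * (b + 1)) (P (b + 1) * Ps (b + 1)) := by
  -- `L = b + 1`
  have key := Rs_deriv (-2 / 3) (2 * (b + 1) + 1) (P (b + 1) * Ps (b + 1))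
  have hid : C (2 : ℚ) * (C ((-2 / 3 : ℚ) + 1) * ((X - 1) * (P (b + 1) * Ps (b + 1)))
      - C (((2 * (b + 1) + 1 : ℕ) : ℚ)) * (X * (P (b + 1) * Ps (b + 1)))
      + X * (X - 1) * derivative (P (b + 1) * Ps (b + 1)))
      = - (C ((b : ℚ) + 5 / 3) * (P (0 + (b + 1) + 1) * P 0 * Ps (b + 1))
        + (X - 1) * (C (1 / 3 : ℚ) * (P (b + 1) * Ps (b + 1))
          - (X - 1) * (C ((b : ℚ) + 4 / 3) * (P (0 + b + 1) * P 0 * Ps b)))) := by
    have l2 := h.L2 b
    have u1 := h.U1 (b + 1)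
    rw [show 0 + (b + 1) + 1 = b + 1 + 1 by ring, show 0 + b + 1 = b + 1 by ring, h.P0,
      derivative_mul]
    set PL := P (b + 1)
    set Pb := Ps (b + 1)
    have c2 : (C (2 : ℚ) : ℚ[X]) = 2 := map_ofNat C 2
    have c3 : (C (3 : ℚ) : ℚ[X]) = 3 := map_ofNat C 3
    have cc1 : (C ((-2 / 3 : ℚ) + 1) : ℚ[X]) = C (1 / 3) := by norm_num
    have cc2 : (C (((2 * (b + 1) + 1 : ℕ) : ℚ)) : ℚ[X]) = 2 * C ((b : ℚ) + 5 / 3)
        - C (1 / 3) := by
      rw [← c2, ← C_mul, ← C_sub]; congr 1; push_cast; ring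
    have cu1 : (C (((b + 1 : ℕ) : ℚ) + 2 / 3) : ℚ[X]) = C ((b : ℚ) + 5 / 3) := by
      congr 1; push_cast; ring
    have cu2 : (C (3 * ((b + 1 : ℕ) : ℚ) + 4 / 3) : ℚ[X])
        = 3 * C ((b : ℚ) + 5 / 3) - C (2 / 3) := by
      rw [← c3, ← C_mul, ← C_sub]; congr 1; push_cast; ring
    have cs : (C ((b : ℚ) + 5 / 3) : ℚ[X]) = C (1 / 3) + C ((b : ℚ) + 4 / 3) := by
      rw [← C_add]; congr 1; ring
    have cb : (C ((b : ℚ) + 2 / 3) : ℚ[X]) = C ((b : ℚ) + 4 / 3) - C (2 / 3) := by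
      rw [← C_sub]; congr 1; ring
    have c23 : (C (2 / 3 : ℚ) : ℚ[X]) = 2 * C (1 / 3) := by
      rw [← c2, ← C_mul]; congr 1; norm_num
    rw [cu1, cu2] at u1
    rw [cb] at l2
    rw [c2, cc1, cc2]
    rw [cs] at u1 ⊢
    rw [c23] at u1 l2
    linear_combination (X - 1) * PL * l2 - Pb * u1
  have h0 := congrArg (Rs (-2 / 3) (2 * (b + 1) + 1)) hid
  rw [← smul_eq_C_mul, map_smul, key, smul_zero, map_neg, map_add, ← smul_eq_C_mul, map_smul,
    Rs_mul_sub_one, map_sub, ← smul_eq_C_mul, map_smul,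
    show 2 * (b + 1) = (2 * b + 1) + 1 by ring, Rs_mul_sub_one,
    ← smul_eq_C_mul, map_smul] at h0
  simp only [smul_eq_mul] at h0
  unfold M
  rw [show 2 * 0 + 2 * (b + 1) + 1 = (2 * b + 1) + 1 + 1 by ring,
    show 2 * 0 + 2 * b + 1 = 2 * b + 1 by ring, show 2 * (b + 1) = (2 * b + 1) + 1 by ring]
  linarith

/-- Rising factorial. -/
def rf (x : ℚ) (n : ℕ) : ℚ := ∏ i ∈ range n, (x + i)

/-- The law of the Polya urn `(1/3,1/3)` after `L` draws. -/
def W (L k : ℕ) : ℚ := (L.choose k : ℚ) * rf (1 / 3) k * rf (1 / 3) (L - k) / rf (2 / 3) L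

theorem rf_succ (x : ℚ) (n : ℕ) : rf x (n + 1) = rf x n * (x + n) := prod_range_succ _ _

theorem rf_pos (x : ℚ) (hx : 0 < x) (n : ℕ) : 0 < rf x n :=
  prod_pos fun i _ => by positivity

theorem W_zero (L : ℕ) : ((L : ℚ) + 2 / 3) * W (L + 1) 0 = ((L : ℚ) + 1 / 3) * W L 0 := by
  have h := (rf_pos (2 / 3) (by norm_num) L).ne'
  have h2 : (2 / 3 + (L : ℚ)) ≠ 0 := by positivity
  simp only [W, Nat.choose_zero_right, Nat.sub_zero, rf_succ]
  field_simp
  ring

theorem W_succ (L k : ℕ) (hk : k ≤ L) :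
    ((L : ℚ) + 2 / 3) * W (L + 1) (k + 1)
      = ((L : ℚ) - (k + 1) + 1 / 3) * W L (k + 1) + ((k : ℚ) + 1 / 3) * W L k := by
  have h := (rf_pos (2 / 3) (by norm_num) L).ne'
  have h2 : (2 / 3 + (L : ℚ)) ≠ 0 := by positivity
  have e1 : L + 1 - (k + 1) = L - k := by omega
  simp only [W, e1, Nat.choose_succ_succ, rf_succ]
  push_cast
  rcases Nat.lt_or_ge k L with hlt | hge
  · have e2 : L - k = (L - (k + 1)) + 1 := by omega
    have e3 : ((L - (k + 1) : ℕ) : ℚ) = (L : ℚ) - (k + 1) := by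
      rw [Nat.cast_sub (by omega)]; push_cast; ring
    rw [e2, rf_succ, e3]
    field_simp
    ring
  · have hkL : k = L := le_antisymm hk hge
    subst hkL
    simp only [Nat.choose_self, Nat.choose_succ_self, Nat.sub_self, rf, Finset.range_zero,
      Finset.prod_empty]
    field_simp
    ring

/-- Distribution function. -/
def Qs (L a : ℕ) : ℚ := ∑ k ∈ range (a + 1), W L k

theorem Qs_succ (L a : ℕ) (ha : a ≤ L) :
    ((L : ℚ) + 2 / 3) * Qs (L + 1) (a + 1)
      = ((L : ℚ) + 2 / 3) * Qs L a + ((L : ℚ) - (a + 1) + 1 / 3) * W L (a + 1) := by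
  induction a with
  | zero =>
    simp only [Qs, sum_range_succ, sum_range_zero, zero_add]
    have h0 := W_zero L
    have h1 := W_succ L 0 (Nat.zero_le _)
    push_cast at h1 ⊢
    linarith
  | succ a ih =>
    have ih' := ih (by omega)
    have h1 := W_succ L (a + 1) ha
    have e1 : Qs (L + 1) (a + 1 + 1) = Qs (L + 1) (a + 1) + W (L + 1) (a + 1 + 1) := by
      rw [Qs, sum_range_succ]; rfl
    have e2 : Qs L (a + 1) = Qs L a + W L (a + 1) := by
      rw [Qs, sum_range_succ]; rfl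
    rw [e1, e2]
    push_cast at h1 ih' ⊢
    linarith

theorem Qs_self (L : ℕ) : Qs L L = 1 := by
  induction L with
  | zero => simp [Qs, W, rf]
  | succ L ih =>
    have h := Qs_succ L L le_rfl
    have hz : W L (L + 1) = 0 := by simp [W]
    rw [ih, hz, mul_zero, add_zero, mul_one] at h
    have h2 : ((L : ℚ) + 2 / 3) ≠ 0 := by positivity
    exact mul_left_cancel₀ h2 (by rw [h, mul_one])

theorem W_symm_zero (L : ℕ) : W L L = W L 0 := by
  simp [W, rf]

/-- The evaluation, from the ladder relations, the Pade normalisation and antisymmetry. -/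
theorem M_eq {P Ps : ℕ → ℚ[X]} (h : Ladder P Ps)
    (hr : ∀ L : ℕ, Rs (-2 / 3) (2 * L) (P L * Ps L) = 1)
    (hanti : ∀ a b : ℕ, M P Ps a b = - M P Ps b a) (a b : ℕ) :
    M P Ps a b = 2 * Qs (a + b + 1) a - 1 := by
  induction a generalizing b with
  | zero =>
    induction b with
    | zero =>
      have h0 := hanti 0 0
      have h1 : M P Ps 0 0 = 0 := by linarith
      rw [h1]
      simp [Qs, W, rf]
      norm_num
    | succ b ih =>
      have h1 := polya_zero h b
      rw [hr, ih] at h1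
      have h2 := W_zero (b + 1)
      have e1 : Qs (0 + b + 1) 0 = W (b + 1) 0 := by simp [Qs]
      have e2 : Qs (0 + (b + 1) + 1) 0 = W (b + 1 + 1) 0 := by simp [Qs]
      rw [e1] at h1
      rw [e2]
      push_cast at h1 h2 ⊢
      have h3 : ((b : ℚ) + 5 / 3) ≠ 0 := by positivity
      apply mul_left_cancel₀ h3
      linarith
  | succ a ih =>
    induction b with
    | zero =>
      rw [hanti]
      have h1 : M P Ps 0 (a + 1) = 2 * Qs (0 + (a + 1) + 1) 0 - 1 := by
        -- row zero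
        have row : ∀ b : ℕ, M P Ps 0 b = 2 * Qs (0 + b + 1) 0 - 1 := by
          intro b
          induction b with
          | zero =>
            have h0 := hanti 0 0
            have h1 : M P Ps 0 0 = 0 := by linarith
            rw [h1]
            simp [Qs, W, rf]
            norm_num
          | succ b ih =>
            have h1 := polya_zero h b
            rw [hr, ih] at h1
            have h2 := W_zero (b + 1)
            have e1 : Qs (0 + b + 1) 0 = W (b + 1) 0 := by simp [Qs]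
            have e2 : Qs (0 + (b + 1) + 1) 0 = W (b + 1 + 1) 0 := by simp [Qs]
            rw [e1] at h1
            rw [e2]
            push_cast at h1 h2 ⊢
            have h3 : ((b : ℚ) + 5 / 3) ≠ 0 := by positivity
            apply mul_left_cancel₀ h3
            linarith
        exact row (a + 1)
      rw [h1]
      have e1 : Qs (0 + (a + 1) + 1) 0 = W (a + 2) 0 := by
        rw [show 0 + (a + 1) + 1 = a + 2 by ring]; simp [Qs]
      have e2 : Qs (a + 1 + 0 + 1) (a + 1) = 1 - W (a + 2) 0 := by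
        have h2 := Qs_self (a + 2)
        rw [Qs, sum_range_succ, W_symm_zero] at h2
        rw [show a + 1 + 0 + 1 = a + 2 by ring]
        unfold Qs
        linarith
      rw [e1, e2]
      ring
    | succ b ihb =>
      have h1 := polya h a b
      rw [ihb, ih (b + 1)] at h1
      have h2 := Qs_succ (a + b + 2) a (by omega)
      have e1 : Qs (a + 1 + b + 1) (a + 1) = Qs (a + b + 2) a + W (a + b + 2) (a + 1) := by
        rw [show a + 1 + b + 1 = a + b + 2 by ring, Qs, sum_range_succ]; rfl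
      rw [e1, show a + (b + 1) + 1 = a + b + 2 by ring] at h1
      rw [show a + 1 + (b + 1) + 1 = a + b + 2 + 1 by ring]
      push_cast at h2
      have h3 : ((a : ℚ) + b + 8 / 3) ≠ 0 := by positivity
      apply mul_left_cancel₀ h3
      linarith

/-- The same with the tail `p(a,b) = ∑_{k=a+1}^{L} w_k`: `M = 1 - 2 p`. -/
theorem M_eq_tail {P Ps : ℕ → ℚ[X]} (h : Ladder P Ps)
    (hr : ∀ L : ℕ, Rs (-2 / 3) (2 * L) (P L * Ps L) = 1)
    (hanti : ∀ a b : ℕ, M P Ps a b = - M P Ps b a) (a b : ℕ) :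
    M P Ps a b = 1 - 2 * ∑ k ∈ Finset.Ico (a + 1) (a + b + 2), W (a + b + 1) k := by
  rw [M_eq h hr hanti]
  have h1 := Qs_self (a + b + 1)
  have h2 : Qs (a + b + 1) (a + b + 1)
      = Qs (a + b + 1) a + ∑ k ∈ Finset.Ico (a + 1) (a + b + 2), W (a + b + 1) k := by
    unfold Qs
    rw [show a + b + 1 + 1 = a + b + 2 by ring, Finset.range_eq_Ico, Finset.range_eq_Ico,
      Finset.sum_Ico_consecutive _ (by omega) (by omega)]
  linarith

end Pool.Agent.H28R2.Cardy
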