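import Mathlib

/-!
# The Polya urn recursion behind the exact discrete Cardy formula (slit strip)

`M P Ps a b = Res_{T=1} T^(-2/3) (T-1)^(-2L) P_L P_a P*_b dT`, `L = a+b+1`, written as
`∑_k [T^k](P_L P_a P*_b) choose (k-2/3) (2L-1)`.  One exact derivative gives
`(L+2/3) M(a,b+1) = (b+4/3) M(a,b) + (a+1/3) M(a-1,b+1)`, the recursion of a Polya urn.
-/

set_option autoImplicit false

namespace Pool.Agent.H28R2.Cardy

open Polynomial Finset

/-- `Res_{T=1} T^α (T-1)^(-m-1) g(T) dT`. -/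
noncomputable def Rs (α : ℚ) (m : ℕ) : ℚ[X] →ₗ[ℚ] ℚ :=
  Polynomial.lsum (fun k => (Ring.choose ((k : ℚ) + α) m) • LinearMap.id)

theorem Rs_apply (α : ℚ) (m : ℕ) (g : ℚ[X]) :
    Rs α m g = g.sum (fun k c => Ring.choose ((k : ℚ) + α) m * c) := by
  simp [Rs, Polynomial.lsum_apply]

theorem Rs_monomial (α : ℚ) (m k : ℕ) (c : ℚ) :
    Rs α m (monomial k c) = Ring.choose ((k : ℚ) + α) m * c := by
  rw [Rs_apply, Polynomial.sum_monomial_index]
  simp

theorem choose_prod (x : ℚ) (m : ℕ) :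
    Ring.choose x m = (∏ i ∈ range m, (x - i)) / m.factorial := by
  rw [Ring.choose_eq_smul]
  have h : ∀ m : ℕ, (descPochhammer ℤ m).smeval x = ∏ i ∈ range m, (x - i) := by
    intro m
    induction m with
    | zero => simp [Polynomial.smeval_one]
    | succ m ih =>
      rw [descPochhammer_succ_right, Polynomial.smeval_mul, ih, prod_range_succ,
        Polynomial.smeval_sub, Polynomial.smeval_X, Polynomial.smeval_natCast]
      simp
  rw [h, smul_eq_mul]
  field_simp

theorem choose_mul (x : ℚ) (m : ℕ) :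
    (x - m) * Ring.choose x m = x * Ring.choose (x - 1) m := by
  rw [choose_prod, choose_prod]
  have h : (x - m) * (∏ i ∈ range m, (x - i)) = x * ∏ i ∈ range m, (x - 1 - i) := by
    have h1 := prod_range_succ (fun i : ℕ => x - (i : ℚ)) m
    have h2 := prod_range_succ' (fun i : ℕ => x - (i : ℚ)) m
    rw [h1] at h2
    rw [mul_comm (x - (m : ℚ)), h2, mul_comm]
    simp only [Nat.cast_zero, sub_zero]
    congr 1
    refine prod_congr rfl fun i _ => ?_
    push_cast
    ring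
  rw [← mul_div_assoc, h, mul_div_assoc]

/-- Residue of a derivative. -/
theorem Rs_deriv (α : ℚ) (m : ℕ) (g : ℚ[X]) :
    Rs α m (C (α + 1) * ((X - 1) * g) - C (m : ℚ) * (X * g) + X * (X - 1) * derivative g) = 0 := by
  induction g using Polynomial.induction_on' with
  | add p q hp hq =>
    have : (C (α + 1) * ((X - 1) * (p + q)) - C (m : ℚ) * (X * (p + q))
        + X * (X - 1) * derivative (p + q))
        = (C (α + 1) * ((X - 1) * p) - C (m : ℚ) * (X * p) + X * (X - 1) * derivative p)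
        + (C (α + 1) * ((X - 1) * q) - C (m : ℚ) * (X * q) + X * (X - 1) * derivative q) := by
      rw [derivative_add]; ring
    rw [this, map_add, hp, hq, add_zero]
  | monomial k c =>
    have hX : ∀ (j : ℕ) (d : ℚ), (X : ℚ[X]) * monomial j d = monomial (j + 1) d := by
      intro j d
      rw [X_mul_monomial]
    have hd : (X : ℚ[X]) * derivative (monomial k c) = monomial k (c * k) := by
      rw [derivative_monomial]
      rcases Nat.eq_zero_or_pos k with h | h
      · subst h; simp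
      · rw [hX, Nat.sub_add_cancel h]
    have : (C (α + 1) * ((X - 1) * monomial k c) - C (m : ℚ) * (X * monomial k c)
        + X * (X - 1) * derivative (monomial k c))
        = monomial (k + 1) ((α + 1 - m + k) * c) - monomial k ((α + 1 + k) * c) := by
      have e1 : X * (X - 1) * derivative (monomial k c) = (X - 1) * monomial k (c * k) := by
        rw [← hd]; ring
      rw [e1, sub_mul, sub_mul, hX, hX, one_mul, one_mul, mul_sub, C_mul_monomial,
        C_mul_monomial, C_mul_monomial]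
      have e3 : (monomial (k + 1) ((α + 1 - m + k) * c) : ℚ[X])
          = monomial (k + 1) ((α + 1) * c) - monomial (k + 1) (m * c)
            + monomial (k + 1) (c * k) := by
        rw [← map_sub, ← map_add]; congr 1; ring
      have e4 : (monomial k ((α + 1 + k) * c) : ℚ[X])
          = monomial k ((α + 1) * c) + monomial k (c * k) := by
        rw [← map_add]; congr 1; ring
      rw [e3, e4]; ring
    rw [this, map_sub, Rs_monomial, Rs_monomial]
    have h := choose_mul ((k : ℚ) + 1 + α) m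
    have e : (k : ℚ) + 1 + α - 1 = k + α := by ring
    rw [e] at h
    have h' : (((k + 1 : ℕ) : ℚ) + α) = (k : ℚ) + 1 + α := by push_cast; ring
    rw [h']
    linear_combination c * h

/-- Multiplication by `T-1` lowers the order of the pole. -/
theorem Rs_mul_sub_one (α : ℚ) (m : ℕ) (g : ℚ[X]) :
    Rs α (m + 1) ((X - 1) * g) = Rs α m g := by
  induction g using Polynomial.induction_on' with
  | add p q hp hq => rw [mul_add, map_add, map_add, hp, hq]
  | monomial k c =>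
    rw [sub_mul, one_mul, X_mul_monomial, map_sub, Rs_monomial, Rs_monomial, Rs_monomial]
    have h := Ring.choose_succ_succ ((k : ℚ) + α) m
    have h' : (((k + 1 : ℕ) : ℚ) + α) = (k : ℚ) + α + 1 := by push_cast; ring
    rw [h', h]
    ring

/-- `M(a,b) = Res_{T=1} T^(-2/3) (T-1)^(-2L) P_L P_a P*_b dT`, `L=a+b+1`. -/
noncomputable def M (P Ps : ℕ → ℚ[X]) (a b : ℕ) : ℚ :=
  Rs (-2 / 3) (2 * a + 2 * b + 1) (P (a + b + 1) * P a * Ps b)

/-- Hypotheses: the first order relations of the Pade polynomials. -/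
structure Ladder (P Ps : ℕ → ℚ[X]) : Prop where
  P0 : P 0 = 1
  Ps0 : Ps 0 = 1
  L1 : ∀ n : ℕ, 2 * (X * derivative (P (n + 1)))
    = C ((n : ℚ) + 4 / 3) * (P (n + 1) - (1 - X) * P n)
  L2 : ∀ n : ℕ, 2 * (X * derivative (Ps (n + 1)))
    = C ((n : ℚ) + 2 / 3) * Ps (n + 1) - C ((n : ℚ) + 4 / 3) * ((1 - X) * Ps n)
  U1 : ∀ n : ℕ, 2 * (X * (1 - X) * derivative (P n))
    = - ((C ((n : ℚ) + 2 / 3) + C (3 * (n : ℚ) + 4 / 3) * X) * P n)
      + C ((n : ℚ) + 2 / 3) * P (n + 1)

theorem polya {P Ps : ℕ → ℚ[X]} (h : Ladder P Ps) (a b : ℕ) :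
    ((a : ℚ) + b + 8 / 3) * M P Ps (a + 1) (b + 1)
      = ((b : ℚ) + 4 / 3) * M P Ps (a + 1) b + ((a : ℚ) + 4 / 3) * M P Ps a (b + 1) := by
  -- `L = a + b + 2`
  have key := Rs_deriv (-2 / 3) (2 * (a + b + 2) + 1) (P (a + 1) * P (a + b + 2) * Ps (b + 1))
  have hid : C (2 : ℚ) * (C ((-2 / 3 : ℚ) + 1) * ((X - 1) * (P (a + 1) * P (a + b + 2) * Ps (b + 1)))
      - C (((2 * (a + b + 2) + 1 : ℕ) : ℚ)) * (X * (P (a + 1) * P (a + b + 2) * Ps (b + 1)))
      + X * (X - 1) * derivative (P (a + 1) * P (a + b + 2) * Ps (b + 1)))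
      = - (C ((a : ℚ) + b + 8 / 3) * (P (a + 1 + (b + 1) + 1) * P (a + 1) * Ps (b + 1))
        - (X - 1) * ((X - 1) * (C ((b : ℚ) + 4 / 3) * (P (a + 1 + b + 1) * P (a + 1) * Ps b)
          + C ((a : ℚ) + 4 / 3) * (P (a + (b + 1) + 1) * P a * Ps (b + 1))))) := by
    have l1 := h.L1 a
    have l2 := h.L2 b
    have u1 := h.U1 (a + b + 2)
    have e1 : a + 1 + (b + 1) + 1 = a + b + 2 + 1 := by ring
    have e2 : a + 1 + b + 1 = a + b + 2 := by ring
    have e3 : a + (b + 1) + 1 = a + b + 2 := by ring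
    rw [e1, e2, e3, derivative_mul, derivative_mul]
    set Pa := P (a + 1)
    set PL := P (a + b + 2)
    set Pb := Ps (b + 1)
    have c2 : (C (2 : ℚ) : ℚ[X]) = 2 := map_ofNat C 2
    have cc1 : (C ((-2 / 3 : ℚ) + 1) : ℚ[X]) = C (1 / 3) := by norm_num
    have cc2 : (C (((2 * (a + b + 2) + 1 : ℕ) : ℚ)) : ℚ[X]) = 2 * C ((a : ℚ) + b + 8 / 3)
        - C (1 / 3) := by
      rw [← c2, ← C_mul, ← C_sub]; congr 1; push_cast; ring
    have cu1 : (C (((a + b + 2 : ℕ) : ℚ) + 2 / 3) : ℚ[X]) = C ((a : ℚ) + b + 8 / 3) := by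
      congr 1; push_cast; ring
    have cu2 : (C (3 * ((a + b + 2 : ℕ) : ℚ) + 4 / 3) : ℚ[X])
        = 3 * C ((a : ℚ) + b + 8 / 3) - C (2 / 3) := by
      have c3 : (3 : ℚ[X]) = C 3 := (map_ofNat C 3).symm
      rw [c3, ← C_mul, ← C_sub]; congr 1; push_cast; ring
    have cs : (C ((a : ℚ) + b + 8 / 3) : ℚ[X]) = C ((a : ℚ) + 4 / 3) + C ((b : ℚ) + 4 / 3) := by
      rw [← C_add]; congr 1; ring
    have cb : (C ((b : ℚ) + 2 / 3) : ℚ[X]) = C ((b : ℚ) + 4 / 3) - C (2 / 3) := by
      rw [← C_sub]; congr 1; ring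
    have c23 : (C (2 / 3 : ℚ) : ℚ[X]) = 2 * C (1 / 3) := by
      rw [← c2, ← C_mul]; congr 1; norm_num
    rw [cu1, cu2] at u1
    rw [cb] at l2
    rw [c2, cc1, cc2]
    rw [cs] at u1 ⊢
    rw [c23] at u1 l2
    linear_combination (X - 1) * PL * Pb * l1 + (X - 1) * Pa * PL * l2 - Pa * Pb * u1
  have h0 := congrArg (Rs (-2 / 3) (2 * (a + b + 2) + 1)) hid
  rw [← smul_eq_C_mul, map_smul, key, smul_zero, map_neg, map_sub, ← smul_eq_C_mul, map_smul,
    show 2 * (a + b + 2) + 1 = (2 * (a + b + 1) + 1) + 1 + 1 by ring, Rs_mul_sub_one,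
    Rs_mul_sub_one, map_add, ← smul_eq_C_mul, ← smul_eq_C_mul, map_smul, map_smul] at h0
  simp only [smul_eq_mul] at h0
  unfold M
  rw [show 2 * (a + 1) + 2 * (b + 1) + 1 = (2 * (a + b + 1) + 1) + 1 + 1 by ring,
    show 2 * (a + 1) + 2 * b + 1 = 2 * (a + b + 1) + 1 by ring,
    show 2 * a + 2 * (b + 1) + 1 = 2 * (a + b + 1) + 1 by ring]
  linarith

end Pool.Agent.H28R2.Cardy
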